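import Pool.Agent.helper76.FP.Spec

/-!
# Project FP (MP_bf63dc_nt), row BAD
-/

set_option autoImplicit false

namespace Pool.Agent.FP

open Finset
open Pool.Agent.FR (mean)
open Pool.Agent.AT (Qk Pair)
open Pool.Agent.HF (Om TC)
open Pool.Agent.DP (Fm PrE CORE2_stmt)

open Classical in
theorem BAD_sum (a b : ℕ) (y : ℤ) (q M : ℕ) :
    ∑ k ∈ range M, fa (a, b) (y + q * (k : ℕ)) = M - (Pool.Agent.HF.cz (TC a b) y q M : ℝ) := by
  unfold Pool.Agent.HF.cz
  rw [Finset.card_filter]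
  push_cast
  rw [eq_sub_iff_add_eq, ← Finset.sum_add_distrib]
  have h : ∀ k ∈ range M, fa (a, b) (y + q * (k : ℕ)) + (if TC a b (y + q * (k : ℕ)) then (1 : ℝ) else 0) = 1 := by
    intro k _
    unfold fa
    by_cases h1 : TC a b (y + q * (k : ℕ))
    · rw [if_pos h1, if_pos h1]
      norm_num
    · rw [if_neg h1, if_neg h1]
      norm_num
  rw [Finset.sum_congr rfl h]
  simp

theorem BAD : BAD_stmt := by
  intro ε a b hG D hD
  unfold GoodS Pool.Agent.SK.Dens at hG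
  push Not at hG
  obtain ⟨q, hq, hDq, h⟩ := hG D hD
  refine ⟨q, hq, hDq, fun M₀ => ?_⟩
  obtain ⟨M, hM, y, hy, h1⟩ := h M₀
  refine ⟨M, hM, y, hy, ?_⟩
  rw [BAD_sum]
  linarith

end Pool.Agent.FP
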